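import Mathlib
import Pool.Agent.H432.MI.Rw
import Pool.Agent.H432.EX.Fin

/-!
Subschemes with real coefficients: exact contacts, local estimates.
-/

set_option autoImplicit false
set_option linter.unusedSectionVars false

namespace Pool.Agent.H432.MI

open NumberField IsDedekindDomain Height Module MvPolynomial Pool.Agent.N750 Pool.Agent.H432.RC
open Pool.Agent.H432.TC Pool.Agent.H432.EX
open Pool.Agent.W180.OP (Pl av wt nrm le_nrm nrm_pos wt_nonneg exists_nrm nrm_nonneg)

variable {M g q w n' d : ℕ}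

/-- the curve with the coefficients `c` meets `D_i` at `z` exactly to the order `a i` -/
def Con {k Ω : Type} [Field k] [Field Ω] [Algebra k Ω]
    (F : Fin q → Fin w → MvPolynomial (Fin M) k) (c : Fin M → Fin (d + 1) → Ω) (z : Fin 2 → Ω)
    (a : Fin q → ℕ) : Prop :=
  ∀ i, (∀ j (y : Fin 2 → Ω), Polynomial.X ^ a i ∣ aeval (lpol c z y) (F i j)) ∧
    ∃ j, ∃ y : Fin 2 → Ω, ¬ Polynomial.X ^ (a i + 1) ∣ aeval (lpol c z y) (F i j)

theorem Con.ex {k K : Type} [Field k] [Field K] [CharZero K] [Algebra k K]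
    {F : Fin q → Fin w → MvPolynomial (Fin M) k} {δ : Fin q → ℕ}
    (hF : ∀ i j, (F i j).IsHomogeneous (δ i)) {c : Fin M → Fin (d + 1) → K} {z : Fin 2 → K}
    {a : Fin q → ℕ} (h : Con F c z a) (y : Fin 2 → K) (hzy : z 0 * y 1 ≠ z 1 * y 0) (i : Fin q) :
    ∃ j, ¬ Polynomial.X ^ (a i + 1) ∣ aeval (lpol c z y) (F i j) := by
  obtain ⟨j, x, hx⟩ := (h i).2
  exact ⟨j, fun hd => hx (dvd_dir (hF i j) c z y hzy _ hd x)⟩

/-- the contacts at the crossings -/
theorem Cro.con {k K : Type} [Field k] [Field K] [CharZero K] [Algebra k K]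
    {F : Fin q → Fin w → MvPolynomial (Fin M) k} {δ : Fin q → ℕ}
    (hF : ∀ i j, (F i j).IsHomogeneous (δ i)) {c : Fin M → Fin (d + 1) → K} {r : K}
    {ν : ℕ} {b : Fin ν → K} {m : Fin ν → Fin q → ℕ} {Q : Fin q → Fin w → Polynomial K}
    (h : Cro F δ (cpol r c) d ν b m Q) (a : Fin ν) :
    Con F c ![r * b a + 1, b a] (m a) := by
  classical
  have hdet : (![r * b a + 1, b a] : Fin 2 → K) 0 * (![r, 1] : Fin 2 → K) 1 ≠
      (![r * b a + 1, b a] : Fin 2 → K) 1 * (![r, 1] : Fin 2 → K) 0 := by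
    show (r * b a + 1) * 1 ≠ b a * r
    intro h0
    apply one_ne_zero (α := K)
    linear_combination h0
  -- the values of the forms
  have hval : ∀ i j (T : K), (aeval (lpol c ![r * b a + 1, b a] ![r, 1]) (F i j)).eval T =
      (aeval (cpol r c) (F i j)).eval (T + b a) := by
    intro i j T
    rw [form_eval]
    have h2 : (fun i => ![r * b a + 1, b a] i + T * ![r, 1] i) =
        ![r * (T + b a) + 1, T + b a] := by
      funext i
      fin_cases i
      · show r * b a + 1 + T * r = r * (T + b a) + 1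
        ring
      · show b a + T * 1 = T + b a
        ring
    have h3 : pc c ![r * (T + b a) + 1, T + b a] = fun l => (cpol r c l).eval (T + b a) :=
      funext fun l => (cpol_eval r c _ l).symm
    rw [h2, h3, ← aeval_eval]
  intro i
  refine ⟨fun j y => ?_, ?_⟩
  · refine dvd_dir (hF i j) c ![r * b a + 1, b a] ![r, 1] hdet (m a i) ?_ y
    have h1 : (Polynomial.X - Polynomial.C (b a)) ^ m a i ∣ aeval (cpol r c) (F i j) := by
      rw [h.fac i j]
      exact Dvd.dvd.mul_right (Finset.dvd_prod_of_mem _ (Finset.mem_univ a)) _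
    obtain ⟨R, hR⟩ := h1
    refine ⟨R.comp (Polynomial.X + Polynomial.C (b a)), ?_⟩
    refine Polynomial.funext fun T => ?_
    rw [hval, hR]
    simp only [Polynomial.eval_mul, Polynomial.eval_pow, Polynomial.eval_sub, Polynomial.eval_X,
      Polynomial.eval_C, Polynomial.eval_comp, Polynomial.eval_add, add_sub_cancel_right]
  · obtain ⟨j, hj⟩ := Function.ne_iff.1 (ev_ne_field (Q i) (h.top i) (b a))
    have hj' : (Q i j).eval (b a) ≠ 0 := hj
    refine ⟨j, ![r, 1], ?_⟩
    rintro ⟨R, hR⟩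
    set E : Polynomial K := (∏ a' ∈ Finset.univ.erase a,
      (Polynomial.X - Polynomial.C (b a')) ^ m a' i) * Q i j with hE
    have hE0 : E.eval (b a) ≠ 0 := by
      rw [hE, Polynomial.eval_mul, Polynomial.eval_prod]
      refine mul_ne_zero (Finset.prod_ne_zero_iff.2 fun a' ha' => ?_) hj'
      rw [Polynomial.eval_pow, Polynomial.eval_sub, Polynomial.eval_X, Polynomial.eval_C]
      exact pow_ne_zero _ (sub_ne_zero.2 fun h0 => (Finset.mem_erase.1 ha').1 (h.inj h0).symm)
    have hfac : aeval (cpol r c) (F i j) =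
        (Polynomial.X - Polynomial.C (b a)) ^ m a i * E := by
      rw [h.fac i j, hE, ← mul_assoc, Finset.mul_prod_erase Finset.univ
        (fun a' => (Polynomial.X - Polynomial.C (b a')) ^ m a' i) (Finset.mem_univ a)]
    have h1 : Polynomial.X ^ m a i * E.comp (Polynomial.X + Polynomial.C (b a)) =
        Polynomial.X ^ m a i * (Polynomial.X * R) := by
      refine Polynomial.funext fun T => ?_
      have h2 := hval i j T
      rw [hR, hfac] at h2
      simp only [Polynomial.eval_mul, Polynomial.eval_pow, Polynomial.eval_sub,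
        Polynomial.eval_X, Polynomial.eval_C, Polynomial.eval_comp, Polynomial.eval_add,
        add_sub_cancel_right] at h2 ⊢
      rw [← h2]
      ring
    have h3 := mul_left_cancel₀ (pow_ne_zero _ Polynomial.X_ne_zero) h1
    have h4 := congrArg (Polynomial.eval 0) h3
    simp only [Polynomial.eval_comp, Polynomial.eval_add, Polynomial.eval_X, Polynomial.eval_C,
      Polynomial.eval_mul, zero_add, zero_mul] at h4
    exact hE0 h4

/-- no contact outside of the subschemes -/
theorem con_zero {k K : Type} [Field k] [Field K] [CharZero K] [Algebra k K]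
    {F : Fin q → Fin w → MvPolynomial (Fin M) k} {c : Fin M → Fin (d + 1) → K} {z : Fin 2 → K}
    (h : ∀ i, ∃ j, aeval (pc c z) (F i j) ≠ 0) : Con F c z 0 := by
  intro i
  refine ⟨fun j y => by simp, ?_⟩
  obtain ⟨j, hj⟩ := h i
  refine ⟨j, 0, ?_⟩
  rw [Pi.zero_apply, zero_add, pow_one, Polynomial.X_dvd_iff, Polynomial.coeff_zero_eq_eval_zero,
    form_eval]
  have h1 : (fun i => z i + 0 * (0 : Fin 2 → K) i) = z := by
    funext i
    simp
  rw [h1]
  exact hj

/-- the local term -/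
noncomputable def lt {k K : Type} [Field k] [Field K] [NumberField K] [Algebra k K] (p : Pl K)
    (F : Fin w → MvPolynomial (Fin M) k) (δ : ℕ) (x : Fin M → K) : ℝ :=
  (δ : ℝ) * Real.log (nrm (av p) x) - Real.log (nrm (av p) (fun j => aeval x (F j)))

/-- the proximity function for real coefficients -/
noncomputable def W {k K : Type} [Field k] [Field K] [NumberField K] [Algebra k K]
    (S : Finset (Pl K)) (F : Fin q → Fin w → MvPolynomial (Fin M) k) (δ : Fin q → ℕ)
    (r : Fin q → ℝ) (x : Fin M → K) : ℝ :=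
  ∑ p ∈ S, wt p * ∑ i, r i * lt p (F i) (δ i) x

theorem W_eq {k K : Type} [Field k] [Field K] [NumberField K] [Algebra k K]
    (S : Finset (Pl K)) (F : Fin q → Fin w → MvPolynomial (Fin M) k) (δ : Fin q → ℕ)
    (r : Fin q → ℝ) (x : Fin M → K) :
    W S F δ r x = ∑ i, r i * prx S (fun _ : Fin 1 => F i) (fun _ => δ i) x := by
  unfold W prx lt
  simp only [Finset.univ_unique, Finset.sum_singleton, Finset.mul_sum]
  rw [Finset.sum_comm]
  refine Finset.sum_congr rfl fun i _ => Finset.sum_congr rfl fun p _ => by ring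

/-- the two-sided local estimate -/
theorem Cro.loc2 {k K : Type} [Field k] [Field K] [NumberField K] [Algebra k K]
    {F : Fin q → Fin w → MvPolynomial (Fin M) k} {δ : Fin q → ℕ}
    (hF : ∀ i j, (F i j).IsHomogeneous (δ i)) {φ : Fin M → Polynomial K}
    (hφd : ∀ l, (φ l).natDegree ≤ d) (htop : Ideal.span (Set.range φ) = ⊤)
    (hlead : ∃ l, (φ l).coeff d ≠ 0)
    {ν : ℕ} {b : Fin ν → K} {m : Fin ν → Fin q → ℕ} {Q : Fin q → Fin w → Polynomial K}
    (h : Cro F δ φ d ν b m Q) (p : Pl K) (i : Fin q) : ∃ C : ℝ, ∀ T : K,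
      (∀ i, ∃ j, aeval (fun l => (φ l).eval T) (F i j) ≠ 0) →
      |lt p (F i) (δ i) (fun l => (φ l).eval T) - ∑ a, (m a i : ℝ) *
        (Real.log (nrm (av p) ![1, T]) - Real.log (av p (T - b a)))| ≤ C := by
  classical
  obtain ⟨g1, hg1, hup⟩ := ev_up_vec φ d hφd
  obtain ⟨g3, hg3, hlo⟩ := ev_low φ d hφd htop hlead
  have hQd := h.Qdeg hF hφd i
  obtain ⟨g2, hg2, hlow⟩ := ev_low (Q i) _ hQd.2.1 (h.top i) hQd.2.2
  obtain ⟨g4, hg4, hup4⟩ := ev_up_vec (Q i) _ hQd.2.1
  refine ⟨((δ i : ℝ) * Real.log (g1 p) + Real.log (g2 p)) +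
    ((δ i : ℝ) * Real.log (g3 p) + Real.log (g4 p)), fun T hT => ?_⟩
  have hTb := h.ne T hT
  have hx0 : (fun l => (φ l).eval T) ≠ 0 := ev_ne_field φ htop T
  set x : Fin M → K := fun l => (φ l).eval T with hx
  set R := nrm (av p) ![1, T] with hR
  have hR1 : 1 ≤ R := nrm2_pos p T
  have l1 : 0 ≤ Real.log (g1 p) := Real.log_nonneg (hg1.1 p)
  have l2 : 0 ≤ Real.log (g2 p) := Real.log_nonneg (hg2.1 p)
  have l3 : 0 ≤ Real.log (g3 p) := Real.log_nonneg (hg3.1 p)
  have l4 : 0 ≤ Real.log (g4 p) := Real.log_nonneg (hg4.1 p)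
  have hnQ : 0 < nrm (av p) (fun j => (Q i j).eval T) :=
    nrm_pos (av p) (ev_ne_field (Q i) (h.top i) T)
  have e1 : (fun j => aeval x (F i j)) =
      fun j => (∏ a, (T - b a) ^ m a i) * (Q i j).eval T := by
    funext j
    exact h.val T i j
  have e2 : nrm (av p) (fun j => aeval x (F i j)) =
      av p (∏ a, (T - b a) ^ m a i) * nrm (av p) (fun j => (Q i j).eval T) := by
    rw [e1]
    exact nrm_smul _ _ _
  have e3 : Real.log (av p (∏ a, (T - b a) ^ m a i)) =
      ∑ a, (m a i : ℝ) * Real.log (av p (T - b a)) := by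
    rw [map_prod, Real.log_prod (fun a _ => by
      rw [map_pow]
      exact pow_ne_zero _ ((av p).pos_iff.2 (sub_ne_zero.2 (hTb a))).ne')]
    refine Finset.sum_congr rfl fun a _ => ?_
    rw [map_pow, Real.log_pow]
  have e4 : av p (∏ a, (T - b a) ^ m a i) ≠ 0 :=
    ((av p).pos_iff.2 (Finset.prod_ne_zero_iff.2 fun a _ => pow_ne_zero _
      (sub_ne_zero.2 (hTb a)))).ne'
  have f1 := Real.log_le_log (nrm_pos (av p) hx0) (hup T p)
  rw [Real.log_mul (by have := hg1.1 p; positivity) (by positivity), Real.log_pow] at f1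
  have f2 := Real.log_le_log (by positivity) (hlow T p)
  rw [Real.log_mul (by have := hg2.1 p; positivity) hnQ.ne', Real.log_pow] at f2
  have f3 := Real.log_le_log (by positivity) (hlo T p)
  rw [Real.log_mul (by have := hg3.1 p; positivity) (nrm_pos (av p) hx0).ne', Real.log_pow] at f3
  have f4 := Real.log_le_log hnQ (hup4 T p)
  rw [Real.log_mul (by have := hg4.1 p; positivity) (by positivity), Real.log_pow] at f4
  have e5 : ((δ i * d - ∑ a, m a i : ℕ) : ℝ) = δ i * d - ∑ a, (m a i : ℝ) := by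
    rw [Nat.cast_sub hQd.1]
    push_cast
    ring
  rw [e5] at f2 f4
  have e6 : ∑ a, (m a i : ℝ) * (Real.log R - Real.log (av p (T - b a))) =
      (∑ a, (m a i : ℝ)) * Real.log R - ∑ a, (m a i : ℝ) *
        Real.log (av p (T - b a)) := by
    rw [Finset.sum_mul, ← Finset.sum_sub_distrib]
    exact Finset.sum_congr rfl fun a _ => by ring
  have g5 : (δ i : ℝ) * Real.log (nrm (av p) x) ≤
      δ i * (Real.log (g1 p) + d * Real.log R) :=
    mul_le_mul_of_nonneg_left f1 (Nat.cast_nonneg _)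
  have g6 : (δ i : ℝ) * (d * Real.log R) ≤
      δ i * (Real.log (g3 p) + Real.log (nrm (av p) x)) :=
    mul_le_mul_of_nonneg_left f3 (Nat.cast_nonneg _)
  have g7 : 0 ≤ (δ i : ℝ) * Real.log (g1 p) := mul_nonneg (Nat.cast_nonneg _) l1
  have g8 : 0 ≤ (δ i : ℝ) * Real.log (g3 p) := mul_nonneg (Nat.cast_nonneg _) l3
  unfold lt
  rw [e2, Real.log_mul e4 hnQ.ne', e3, e6, abs_le]
  constructor <;> nlinarith

end Pool.Agent.H432.MI
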