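import Mathlib
import Pool.Agent.H432.MI.Loc

/-!
The upper bound on a rational curve for real coefficients.
-/

set_option autoImplicit false
set_option linter.unusedSectionVars false

namespace Pool.Agent.H432.MI

open NumberField IsDedekindDomain Height Module MvPolynomial Pool.Agent.N750 Pool.Agent.H432.RC
open Pool.Agent.H432.TC Pool.Agent.H432.EX
open Pool.Agent.W180.OP (Pl av wt nrm le_nrm nrm_pos wt_nonneg exists_nrm nrm_nonneg)

variable {M g q w n' d : ℕ}

/-- the distance is bounded by the height -/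
theorem dist_up {K : Type} [Field K] [NumberField K] (b : K) (p : Pl K) : ∃ C : ℝ, 0 ≤ C ∧
    ∀ T : K, T ≠ b → - C ≤ Real.log (nrm (av p) ![1, T]) - Real.log (av p (T - b)) := by
  obtain ⟨g1, hg1, hup⟩ := ev_up_vec (fun _ : Fin 1 => (Polynomial.X - Polynomial.C b)) 1
    (fun _ => (Polynomial.natDegree_X_sub_C_le b))
  refine ⟨Real.log (g1 p), Real.log_nonneg (hg1.1 p), fun T hT => ?_⟩
  have h1 := hup T p
  have h2 : nrm (av p) (fun _ : Fin 1 => (Polynomial.X - Polynomial.C b).eval T) =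
      av p (T - b) := by
    rw [Polynomial.eval_sub, Polynomial.eval_X, Polynomial.eval_C]
    exact nrm_one p (T - b)
  rw [h2, pow_one] at h1
  have h3 : 0 < av p (T - b) := (av p).pos_iff.2 (sub_ne_zero.2 hT)
  have h4 := Real.log_le_log h3 h1
  have h5 : 1 ≤ nrm (av p) ![1, T] := nrm2_pos p T
  rw [Real.log_mul (by have := hg1.1 p; positivity) (by positivity)] at h4
  linarith

/-- a further point outside of the subschemes -/
theorem exists_off {k K : Type} [Field k] [Field K] [NumberField K] [Algebra k K]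
    {F : Fin q → Fin w → MvPolynomial (Fin M) k} {δ : Fin q → ℕ} {φ : Fin M → Polynomial K}
    {ν : ℕ} {b : Fin ν → K} {m : Fin ν → Fin q → ℕ} {Q : Fin q → Fin w → Polynomial K}
    (h : Cro F δ φ d ν b m Q) : ∃ T : K, ∀ i, ∃ j, aeval (fun l => (φ l).eval T) (F i j) ≠ 0 := by
  classical
  obtain ⟨T, hT⟩ := Infinite.exists_notMem_finset (Finset.univ.image b)
  refine ⟨T, fun i => ?_⟩
  obtain ⟨j, hj⟩ := Function.ne_iff.1 (ev_ne_field (Q i) (h.top i) T)
  have hj' : (Q i j).eval T ≠ 0 := hj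
  refine ⟨j, ?_⟩
  rw [h.val]
  refine mul_ne_zero (Finset.prod_ne_zero_iff.2 fun a _ => pow_ne_zero _ (sub_ne_zero.2 ?_)) hj'
  rintro rfl
  exact hT (Finset.mem_image.2 ⟨a, Finset.mem_univ _, rfl⟩)

/-- **the upper bound**, parameters near a given point at infinity -/
theorem up_r {k K : Type} [Field k] [Field K] [NumberField K] [IsGalois ℚ K] [Algebra k K]
    (hi : ∃ z : K, z ^ 2 = -1)
    {G : Fin g → MvPolynomial (Fin M) k} (hsm : Sm (n' + 1) G)
    {F : Fin q → Fin w → MvPolynomial (Fin M) k} {δ : Fin q → ℕ}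
    (hF : ∀ i j, (F i j).IsHomogeneous (δ i)) (u : Fin q → ℝ) {c : Fin M → Fin (d + 1) → K}
    (hc : CurveOK G F c) {m0 : ℕ} {β : (Fin (n' + 2) → Fin M) → Fin (m0 + 1) → K}
    (hβ : GF G c β) (r : ℕ) (hr : ∀ i, ∃ j, aeval (pc c ![(r : K), 1]) (F i j) ≠ 0) (B : ℝ)
    (hB : ∀ z y : Fin 2 → K, z 0 * y 1 ≠ z 1 * y 0 → ∀ a a' : Fin q → ℕ, Con F c z a →
      Con F c y a' → (m0 : ℝ) + ∑ i, u i * a i + ∑ i, u i * a' i ≤ B)
    (S : Finset (Pl K)) (ε : ℝ) (hε : 0 < ε) : ∃ C : ℝ, ∀ T : K,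
      (∀ i, ∃ j, aeval (pc c ![(r : K) * T + 1, T]) (F i j) ≠ 0) →
      ∀ A, IsTB (p := n' + 2) G (pc c ![(r : K) * T + 1, T]) A →
      |logHeight (pc c ![(r : K) * T + 1, T]) - d * logHeight ![1, T]| ≤ C ∧
      W S F δ u (pc c ![(r : K) * T + 1, T]) + logHeight (mv A) ≤
        (B + ε) * logHeight ![1, T] + C := by
  classical
  have hnz : NZ c := fun Ω _ _ z hz => hc.nz Ω z hz
  have hdet : (![1, 0] : Fin 2 → K) 0 * (![(r : K), 1] : Fin 2 → K) 1 ≠
      (![1, 0] : Fin 2 → K) 1 * (![(r : K), 1] : Fin 2 → K) 0 := by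
    simp
  have hvec : ∀ T : K, (fun i => (![1, 0] : Fin 2 → K) i + T * (![(r : K), 1] : Fin 2 → K) i) =
      ![(r : K) * T + 1, T] := by
    intro T
    funext i
    fin_cases i
    · show 1 + T * (r : K) = (r : K) * T + 1
      ring
    · show 0 + T * 1 = T
      ring
  obtain ⟨C1, hC1⟩ := hnz.ht ![1, 0] ![(r : K), 1] hdet
  obtain ⟨C2, hC2⟩ := hβ.ht hsm hnz ![1, 0] ![(r : K), 1] hdet
  simp only [hvec] at hC1 hC2
  obtain ⟨ν, b, m, Q, hcro⟩ := exists_cro (G := G) hF hc (r : K) hr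
  set φ : Fin M → Polynomial K := cpol (r : K) c with hφ
  have hφd : ∀ l, (φ l).natDegree ≤ d := fun l => cpol_deg _ c l
  have htop : Ideal.span (Set.range φ) = ⊤ := hc.top _
  have hφT : ∀ T : K, (fun l => (φ l).eval T) = pc c ![(r : K) * T + 1, T] := by
    intro T
    funext l
    exact cpol_eval _ c T l
  have hlead : ∃ l, (φ l).coeff d ≠ 0 := by
    have h1 : pc c ![(r : K), 1] ≠ 0 := hnz.ne _ (by
      intro h
      have := congrFun h 1
      simp at this)
    obtain ⟨l, hl⟩ := Function.ne_iff.1 h1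
    refine ⟨l, ?_⟩
    rw [hφ, cpol_coeff]
    exact hl
  choose C3 hC3 using fun p i => Cro.loc2 hF hφd htop hlead hcro p i
  choose C5 hC50 hC5 using fun p a => dist_up (b a) p
  set μ : Fin ν → ℝ := fun a => ∑ i, u i * m a i with hμ
  set μp : Fin ν → ℝ := fun a => max 0 (μ a) with hμp
  have hzero : 0 ≤ B - m0 := by
    obtain ⟨T0, hT0⟩ := exists_off hcro
    rw [hφT] at hT0
    have h1 := hB ![(r : K) * T0 + 1, T0] ![(r : K), 1] (by
      show ((r : K) * T0 + 1) * 1 ≠ T0 * (r : K)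
      intro h0
      apply one_ne_zero (α := K)
      linear_combination h0) _ _ (con_zero hT0) (con_zero hr)
    simp only [Pi.zero_apply, Nat.cast_zero, mul_zero, Finset.sum_const_zero] at h1
    linarith
  have hone' : ∀ a, μ a ≤ B - m0 := by
    intro a
    have h1 := hB ![(r : K) * b a + 1, b a] ![(r : K), 1] (by
      show ((r : K) * b a + 1) * 1 ≠ b a * (r : K)
      intro h0
      apply one_ne_zero (α := K)
      linear_combination h0) _ _ (Cro.con hF hcro a) (con_zero hr)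
    simp only [Pi.zero_apply, Nat.cast_zero, mul_zero, Finset.sum_const_zero] at h1
    rw [hμ]
    show ∑ i, u i * (m a i : ℝ) ≤ B - m0
    linarith
  have hpair' : ∀ a a', a ≠ a' → μ a + μ a' ≤ B - m0 := by
    intro a a' haa
    have h1 := hB ![(r : K) * b a + 1, b a] ![(r : K) * b a' + 1, b a'] (by
      show ((r : K) * b a + 1) * b a' ≠ b a * ((r : K) * b a' + 1)
      intro h0
      apply haa
      apply hcro.inj
      linear_combination -h0) _ _ (Cro.con hF hcro a) (Cro.con hF hcro a')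
    rw [hμ]
    show ∑ i, u i * (m a i : ℝ) + ∑ i, u i * (m a' i : ℝ) ≤ B - m0
    linarith
  have hone : ∀ a, μp a ≤ B - m0 := fun a => max_le hzero (hone' a)
  have hpair : ∀ a a', a ≠ a' → μp a + μp a' ≤ B - m0 := by
    intro a a' haa
    have h1 := hpair' a a' haa
    have h2 := hone' a
    have h3 := hone' a'
    show max 0 (μ a) + max 0 (μ a') ≤ B - m0
    rcases max_cases 0 (μ a) with ⟨e1, _⟩ | ⟨e1, _⟩ <;>
      rcases max_cases 0 (μ a') with ⟨e2, _⟩ | ⟨e2, _⟩ <;> rw [e1, e2] <;> linarith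
  obtain ⟨C4, hC4⟩ := roth_wt hi b hcro.inj μp (fun a => le_max_left _ _) (B - m0) hzero hone
    hpair S ε hε
  set D : Pl K → ℝ := fun p => ∑ i, |u i| * C3 p i + ∑ a, (μp a - μ a) * C5 p a with hD
  refine ⟨max C1 (C2 + C4 + ∑ p ∈ S, wt p * D p), fun T hT A hA => ?_⟩
  refine ⟨(hC1 T).trans (le_max_left _ _), ?_⟩
  have hFx : ∀ i, ∃ j, aeval (fun l => (φ l).eval T) (F i j) ≠ 0 := by
    rw [hφT]
    exact hT
  have h1 := (abs_le.1 (hC2 T (fun i => hc.onX _ i) A hA)).2
  have hTb := hcro.ne T hFx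
  have h2 := hC4 T hTb
  have h3 : W S F δ u (pc c ![(r : K) * T + 1, T]) ≤ ∑ p ∈ S, wt p * ∑ a, μp a *
      (Real.log (nrm (av p) ![1, T]) - Real.log (av p (T - b a))) + ∑ p ∈ S, wt p * D p := by
    unfold W
    rw [← Finset.sum_add_distrib]
    refine Finset.sum_le_sum fun p _ => ?_
    rw [← mul_add]
    refine mul_le_mul_of_nonneg_left ?_ (wt_nonneg p)
    set X : Fin ν → ℝ := fun a => Real.log (nrm (av p) ![1, T]) - Real.log (av p (T - b a))
      with hX
    have h4 : ∀ i, u i * lt p (F i) (δ i) (pc c ![(r : K) * T + 1, T]) ≤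
        u i * ∑ a, (m a i : ℝ) * X a + |u i| * C3 p i := by
      intro i
      have h5 := hC3 p i T hFx
      rw [hφT] at h5
      have h6 : u i * (lt p (F i) (δ i) (pc c ![(r : K) * T + 1, T]) - ∑ a, (m a i : ℝ) * X a) ≤
          |u i| * C3 p i := by
        refine (le_abs_self _).trans ?_
        rw [abs_mul]
        exact mul_le_mul_of_nonneg_left h5 (abs_nonneg _)
      linarith
    have h7 : ∑ i, u i * ∑ a, (m a i : ℝ) * X a = ∑ a, μ a * X a := by
      simp only [Finset.mul_sum, hμ, Finset.sum_mul]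
      rw [Finset.sum_comm]
      refine Finset.sum_congr rfl fun a _ => Finset.sum_congr rfl fun i _ => by ring
    have h8 : ∀ a, μ a * X a ≤ μp a * X a + (μp a - μ a) * C5 p a := by
      intro a
      have h9 := hC5 p a T (hTb a)
      have h10 : 0 ≤ μp a - μ a := sub_nonneg.2 (le_max_right _ _)
      have h11 : 0 ≤ (μp a - μ a) * (X a + C5 p a) := mul_nonneg h10 (by linarith)
      linarith
    calc ∑ i, u i * lt p (F i) (δ i) (pc c ![(r : K) * T + 1, T]) ≤
        ∑ i, (u i * ∑ a, (m a i : ℝ) * X a + |u i| * C3 p i) := Finset.sum_le_sum fun i _ => h4 i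
      _ = ∑ a, μ a * X a + ∑ i, |u i| * C3 p i := by rw [Finset.sum_add_distrib, h7]
      _ ≤ ∑ a, (μp a * X a + (μp a - μ a) * C5 p a) + ∑ i, |u i| * C3 p i := by
        have := Finset.sum_le_sum fun a (_ : a ∈ Finset.univ) => h8 a
        linarith
      _ = ∑ a, μp a * X a + D p := by rw [Finset.sum_add_distrib, hD]; ring
  have h5 := le_max_right C1 (C2 + C4 + ∑ p ∈ S, wt p * D p)
  nlinarith

end Pool.Agent.H432.MI
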