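import Mathlib
import Pool.Agent.H432.MI.Up

/-!
The upper bound on a rational curve for real coefficients, all fields.
-/

set_option autoImplicit false
set_option linter.unusedSectionVars false

namespace Pool.Agent.H432.MI

open NumberField IsDedekindDomain Height Module MvPolynomial Pool.Agent.N750 Pool.Agent.H432.RC
open Pool.Agent.H432.TC Pool.Agent.H432.EX
open Pool.Agent.W180.OP (Pl av wt nrm le_nrm nrm_pos wt_nonneg exists_nrm nrm_nonneg)

variable {M g q w n' d : ℕ}

theorem W_ext {k K K' : Type} [Field k] [NumberField k] [Field K] [NumberField K] [Algebra k K]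
    [Field K'] [NumberField K'] [Algebra k K'] [Algebra K K'] [IsScalarTower k K K']
    [DecidableEq (Pl K')] (S : Finset (Pl K))
    (F : Fin q → Fin w → MvPolynomial (Fin M) k) (δ : Fin q → ℕ) (u : Fin q → ℝ)
    (x : Fin M → K) (hx : x ≠ 0) (hF : ∀ i, ∃ j, aeval x (F i j) ≠ 0) :
    W (S.biUnion (ab K')) F δ u (fun l => algebraMap K K' (x l)) = finrank K K' * W S F δ u x := by
  rw [W_eq, W_eq, Finset.mul_sum]
  refine Finset.sum_congr rfl fun i _ => ?_
  rw [prx_ext S (fun _ : Fin 1 => F i) (fun _ => δ i) x hx (fun _ => hF i)]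
  ring

theorem W_smul {k K : Type} [Field k] [NumberField k] [Field K] [NumberField K] [Algebra k K]
    (S : Finset (Pl K))
    (F : Fin q → Fin w → MvPolynomial (Fin M) k) (δ : Fin q → ℕ)
    (hF : ∀ i j, (F i j).IsHomogeneous (δ i)) (u : Fin q → ℝ) (a : K) (ha : a ≠ 0)
    (x : Fin M → K) (hx : x ≠ 0) (hxF : ∀ i, ∃ j, aeval x (F i j) ≠ 0) :
    W S F δ u (fun l => a * x l) = W S F δ u x := by
  rw [W_eq, W_eq]
  refine Finset.sum_congr rfl fun i _ => ?_
  rw [prx_smul S (fun _ : Fin 1 => F i) (fun _ => δ i) (fun _ j => hF i j) a ha x hx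
    (fun _ => hxF i)]

/-- **the upper bound** -/
theorem up_all {k K : Type} [Field k] [NumberField k] [Field K] [NumberField K] [Algebra k K]
    {G : Fin g → MvPolynomial (Fin M) k} {e : Fin g → ℕ} (hG : ∀ i, (G i).IsHomogeneous (e i))
    (hsm : Sm (n' + 1) G)
    {F : Fin q → Fin w → MvPolynomial (Fin M) k} {δ : Fin q → ℕ}
    (hF : ∀ i j, (F i j).IsHomogeneous (δ i)) (u : Fin q → ℝ) (hd0 : 1 ≤ d) {c : Fin M → Fin (d + 1) → K}
    (hc : RC0 G c) (hD : ∃ z : Fin 2 → K, z ≠ 0 ∧ ∀ i, ∃ j, aeval (pc c z) (F i j) ≠ 0)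
    {m0 : ℕ} {β : (Fin (n' + 2) → Fin M) → Fin (m0 + 1) → K}
    (hβ : GF G c β) (α : ℝ)
    (hB : ∀ (E : Type) [Field E] [NumberField E] [Algebra k E] [Algebra K E] [IsScalarTower k K E]
      (z y : Fin 2 → E), z 0 * y 1 ≠ z 1 * y 0 → ∀ a a' : Fin q → ℕ,
      Con F (fun l m => algebraMap K E (c l m)) z a →
      Con F (fun l m => algebraMap K E (c l m)) y a' →
      (m0 : ℝ) + ∑ i, u i * a i + ∑ i, u i * a' i ≤ (n' + 2 + α) * d)
    (S : Finset (Pl K)) (ε : ℝ) (hε : 0 < ε) : ∃ C : ℝ, ∀ s : Fin 2 → K, s ≠ 0 →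
      (∀ i, ∃ j, aeval (pc c s) (F i j) ≠ 0) → ∀ A, IsTB (p := n' + 2) G (pc c s) A →
      W S F δ u (pc c s) + logHeight (mv A) ≤
        (n' + 2 + α + ε) * logHeight (pc c s) + C := by
  classical
  obtain ⟨E0, hE1, hE2, hE3, hE4, hE5, hok⟩ := exists_E hF hc hD
  obtain ⟨E, hfd, hgal, hi, ⟨f⟩⟩ := Pool.Agent.R405.exists_big E0
  have hEN : NumberField E := { to_charZero := inferInstance, to_finiteDimensional := hfd }
  let _ : Algebra E0 E := f.toAlgebra
  let _ : Algebra K E := (f.comp (algebraMap K E0)).toAlgebra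
  let _ : Algebra k E := (f.comp (algebraMap k E0)).toAlgebra
  have t1 : IsScalarTower K E0 E := IsScalarTower.of_algebraMap_eq fun x => rfl
  have t2 : IsScalarTower k E0 E := IsScalarTower.of_algebraMap_eq fun x => rfl
  have t3 : IsScalarTower k K E := IsScalarTower.of_algebraMap_eq fun x => by
    show f (algebraMap k E0 x) = f (algebraMap K E0 (algebraMap k K x))
    rw [← IsScalarTower.algebraMap_apply k K E0]
  have hcomp : (fun l m => algebraMap E0 E (algebraMap K E0 (c l m))) =
      fun l m => algebraMap K E (c l m) := rfl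
  have hokE : CurveOK G F (fun l m => algebraMap K E (c l m)) := by
    rw [← hcomp]
    refine CurveOK.map (L := E0) ?_ hok
    intro Ω _ _ _ _ z i
    let _ : Algebra K Ω := ((algebraMap E0 Ω).comp (algebraMap K E0)).toAlgebra
    have htow : IsScalarTower k K Ω := IsScalarTower.of_algebraMap_eq fun x => by
      rw [IsScalarTower.algebraMap_apply k E0 Ω, IsScalarTower.algebraMap_apply k K E0]
      rfl
    exact hc.onX Ω z i
  have hβE := hβ.map (E := E)
  set c' : Fin M → Fin (d + 1) → E := fun l m => algebraMap K E (c l m) with hc'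
  have hf0 : (0 : ℝ) < finrank K E := by exact_mod_cast finrank_pos
  have hf1 : (1 : ℝ) ≤ finrank K E := by
    have : 0 < finrank K E := finrank_pos
    exact_mod_cast this
  have hkey : ∀ r : ℕ, ∃ C : ℝ, (∀ i, ∃ j, aeval (pc c ![(r : K), 1]) (F i j) ≠ 0) →
      ∀ T : K, (∀ i, ∃ j, aeval (pc c ![(r : K) * T + 1, T]) (F i j) ≠ 0) →
      ∀ A, IsTB (p := n' + 2) G (pc c ![(r : K) * T + 1, T]) A →
      W S F δ u (pc c ![(r : K) * T + 1, T]) + logHeight (mv A) ≤
        (n' + 2 + α + ε) * logHeight (pc c ![(r : K) * T + 1, T]) + C := by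
    intro r
    by_cases hr : ∀ i, ∃ j, aeval (pc c ![(r : K), 1]) (F i j) ≠ 0
    swap
    · exact ⟨0, fun h => absurd h hr⟩
    have hmap : ∀ T : K, pc c' ![(r : E) * algebraMap K E T + 1, algebraMap K E T] =
        fun l => algebraMap K E (pc c ![(r : K) * T + 1, T] l) := by
      intro T
      rw [← pc_map]
      congr 1
      funext i
      fin_cases i
      · show (r : E) * algebraMap K E T + 1 = algebraMap K E ((r : K) * T + 1)
        rw [map_add, map_mul, map_one, map_natCast]
      · rfl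
    have hmap2 : pc c' ![(r : E), 1] = fun l => algebraMap K E (pc c ![(r : K), 1] l) := by
      rw [← pc_map]
      congr 1
      funext i
      fin_cases i
      · exact (map_natCast _ _).symm
      · exact (map_one _).symm
    have hr2 : ∀ i, ∃ j, aeval (pc c' ![(r : E), 1]) (F i j) ≠ 0 := by
      intro i
      obtain ⟨j, hj⟩ := hr i
      refine ⟨j, ?_⟩
      rw [hmap2, aeval_am]
      exact (map_ne_zero _).2 hj
    obtain ⟨C, hC⟩ := up_r hi hsm hF u hokE hβE r hr2 ((n' + 2 + α) * d) (hB E)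
      (S.biUnion (ab E)) ε hε
    have hC0 : 0 ≤ |C| := abs_nonneg C
    refine ⟨|n' + 2 + α| * |C| + ε * |C| + |C|, fun _ T hT A hA => ?_⟩
    have hTE : ∀ i, ∃ j, aeval (pc c' ![(r : E) * algebraMap K E T + 1, algebraMap K E T])
        (F i j) ≠ 0 := by
      intro i
      obtain ⟨j, hj⟩ := hT i
      refine ⟨j, ?_⟩
      rw [hmap, aeval_am]
      exact (map_ne_zero _).2 hj
    obtain ⟨h1, h2⟩ := hC (algebraMap K E T) hTE (fun l c => algebraMap K E (A l c)) (by
      rw [hmap]
      exact IsTB_map G _ A hA)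
    have hx0 : pc c ![(r : K) * T + 1, T] ≠ 0 := hc.nz K _ (vec_ne _ _)
    rw [hmap] at h1 h2
    rw [W_ext S F δ u _ hx0 hT] at h2
    have e12 : logHeight (![1, algebraMap K E T] : Fin 2 → E) =
        finrank K E * logHeight (![1, T] : Fin 2 → K) := by
      have h1 : (![1, algebraMap K E T] : Fin 2 → E) = fun i => algebraMap K E (![1, T] i) := by
        funext i
        fin_cases i
        · exact (map_one _).symm
        · rfl
      rw [h1]
      exact Pool.Agent.Helper259.HtExt.logHeight_ext (K := K) (L := E) _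
    have e1 : logHeight (mv (fun l c => algebraMap K E (A l c))) =
        finrank K E * logHeight (mv A) := by
      have : mv (fun l c => algebraMap K E (A l c)) = fun J => algebraMap K E (mv A J) := by
        funext J
        exact mv_map A J
      rw [this]
      exact Pool.Agent.Helper259.HtExt.logHeight_ext (K := K) (L := E) (mv A)
    have e2 : logHeight (fun l => algebraMap K E (pc c ![(r : K) * T + 1, T] l)) =
        finrank K E * logHeight (pc c ![(r : K) * T + 1, T]) :=
      Pool.Agent.Helper259.HtExt.logHeight_ext (K := K) (L := E) _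
    rw [e12, e1] at h2
    rw [e12, e2] at h1
    set H := logHeight (![1, T] : Fin 2 → K) with hH
    set hx := logHeight (pc c ![(r : K) * T + 1, T]) with hhx
    have hH0 : 0 ≤ H := logHeight_nonneg _
    set N : ℝ := (finrank K E : ℝ) with hN
    obtain ⟨h3, h4⟩ := abs_le.1 h1
    have h5 := le_abs_self C
    have hd1 : (1 : ℝ) ≤ d := by exact_mod_cast hd0
    -- comparison of heights
    have h6 : (n' + 2 + α) * ((d : ℝ) * (N * H) - N * hx) ≤ |n' + 2 + α| * |C| := by
      refine (le_abs_self _).trans ?_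
      rw [abs_mul]
      refine mul_le_mul_of_nonneg_left ?_ (abs_nonneg _)
      rw [abs_sub_comm]
      exact h1.trans h5
    have h7 : ε * (N * H) ≤ ε * (N * hx + |C|) := by
      refine mul_le_mul_of_nonneg_left ?_ hε.le
      have h8 : N * H ≤ d * (N * H) := by
        have : 0 ≤ N * H := by positivity
        nlinarith
      linarith
    have h9 : N * (W S F δ u (pc c ![(r : K) * T + 1, T]) + logHeight (mv A)) ≤
        N * ((n' + 2 + α + ε) * hx) + (|n' + 2 + α| * |C| + ε * |C| + |C|) := by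
      nlinarith
    have h10 : 0 ≤ |n' + 2 + α| * |C| + ε * |C| + |C| := by positivity
    have h11 : N * (W S F δ u (pc c ![(r : K) * T + 1, T]) + logHeight (mv A)) ≤
        N * ((n' + 2 + α + ε) * hx + (|n' + 2 + α| * |C| + ε * |C| + |C|)) := by
      nlinarith
    exact le_of_mul_le_mul_left h11 hf0
  choose C hC using hkey
  refine ⟨∑ r ∈ Finset.range (∑ i, δ i * d + 2), |C r|, fun s hs hsF A hA => ?_⟩
  obtain ⟨r, hr1, hr2⟩ := exists_r c s hs F δ hF hsF
  set a : K := s 0 - (r.1 : K) * s 1 with ha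
  set T : K := s 1 / a with hT
  have hsy : pc c s = fun l => a ^ d * pc c ![(r.1 : K) * T + 1, T] l := by
    rw [← pc_smul]
    congr 1
    funext x
    fin_cases x
    · show s 0 = a * ((r.1 : K) * T + 1)
      rw [hT]
      field_simp
      rw [ha]
      ring
    · show s 1 = a * T
      rw [hT]
      field_simp
  have had : a ^ d ≠ 0 := pow_ne_zero _ hr1
  have hyF : ∀ i, ∃ j, aeval (pc c ![(r.1 : K) * T + 1, T]) (F i j) ≠ 0 := by
    intro i
    obtain ⟨j, hj⟩ := hsF i
    refine ⟨j, fun h => hj ?_⟩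
    rw [hsy, RC.aeval_hom (hF i j), h, mul_zero]
  have hAy : IsTB G (pc c ![(r.1 : K) * T + 1, T]) A := by
    refine ⟨hA.1, fun cc => ?_⟩
    have e1 := hA.2 cc
    rw [hsy, TS_smul hG _ had] at e1
    exact e1
  have h1 := hC r.1 hr2 T hyF A hAy
  have e1 : logHeight (pc c s) = logHeight (pc c ![(r.1 : K) * T + 1, T]) := by
    rw [hsy]
    exact logHeight_smul_eq_logHeight (pc c ![(r.1 : K) * T + 1, T]) had
  have hx0 : pc c ![(r.1 : K) * T + 1, T] ≠ 0 := hc.nz K _ (vec_ne _ _)
  have e2 : W S F δ u (pc c s) = W S F δ u (pc c ![(r.1 : K) * T + 1, T]) := by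
    rw [hsy]
    exact W_smul S F δ hF u _ had _ hx0 hyF
  rw [e1, e2]
  have h4 : C r.1 ≤ ∑ r ∈ Finset.range (∑ i, δ i * d + 2), |C r| :=
    (le_abs_self _).trans (Finset.single_le_sum (f := fun r => |C r|)
      (fun _ _ => abs_nonneg _) (Finset.mem_range.2 r.2))
  linarith

end Pool.Agent.H432.MI
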