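import Mathlib
import Pool.Agent.H432.MI.UpA

/-!
Powers of two on a rational curve.
-/

set_option autoImplicit false
set_option linter.unusedSectionVars false

namespace Pool.Agent.H432.MI

open NumberField IsDedekindDomain Height Module MvPolynomial Pool.Agent.N750 Pool.Agent.H432.RC
open Pool.Agent.H432.TC Pool.Agent.H432.EX Filter
open Pool.Agent.W180.OP (Pl av wt nrm le_nrm nrm_pos wt_nonneg exists_nrm nrm_nonneg)

variable {M g q w n' d : ℕ}

/-- one term dominates -/
theorem dom {K : Type} [Field K] (f : AbsoluteValue K ℝ) (P : Polynomial K) (k : ℕ) (T : K) (ρ : ℝ)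
    (hρ : 0 ≤ ρ) (h : ∀ i ∈ P.support, i ≠ k → f T ^ i ≤ f T ^ k * ρ) :
    f T ^ k * (f (P.coeff k) - (∑ i ∈ P.support, f (P.coeff i)) * ρ) ≤ f (P.eval T) := by
  classical
  set s : K := ∑ i ∈ P.support.erase k, P.coeff i * T ^ i with hs
  have h1 : P.eval T = P.coeff k * T ^ k + s := by
    rw [Polynomial.eval_eq_sum, Polynomial.sum_def, hs]
    by_cases hk : k ∈ P.support
    · rw [← Finset.add_sum_erase _ _ hk]
    · rw [Finset.erase_eq_of_notMem hk, Polynomial.notMem_support_iff.1 hk, zero_mul, zero_add]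
  have hT : 0 ≤ f T ^ k := pow_nonneg (f.nonneg _) _
  have h2 : f s ≤ f T ^ k * ((∑ i ∈ P.support, f (P.coeff i)) * ρ) := by
    calc f s ≤ ∑ i ∈ P.support.erase k, f (P.coeff i * T ^ i) := f.sum_le _ _
      _ ≤ ∑ i ∈ P.support.erase k, f (P.coeff i) * (f T ^ k * ρ) := by
          refine Finset.sum_le_sum fun i hi => ?_
          rw [map_mul, map_pow]
          exact mul_le_mul_of_nonneg_left (h i (Finset.mem_of_mem_erase hi)
            (Finset.ne_of_mem_erase hi)) (f.nonneg _)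
      _ ≤ ∑ i ∈ P.support, f (P.coeff i) * (f T ^ k * ρ) :=
          Finset.sum_le_sum_of_subset_of_nonneg (Finset.erase_subset _ _)
            fun i _ _ => mul_nonneg (f.nonneg _) (mul_nonneg hT hρ)
      _ = f T ^ k * ((∑ i ∈ P.support, f (P.coeff i)) * ρ) := by
          rw [← Finset.sum_mul]
          ring
  have h3 : f (P.coeff k * T ^ k) = f T ^ k * f (P.coeff k) := by
    rw [map_mul, map_pow]
    ring
  have h4 : f (P.coeff k * T ^ k) ≤ f (P.eval T) + f s := by
    have h5 : P.coeff k * T ^ k = P.eval T + (- s) := by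
      rw [h1]
      ring
    have h6 := f.add_le (P.eval T) (- s)
    rw [← h5, f.map_neg] at h6
    exact h6
  rw [h3] at h4
  linarith

/-- one term dominates for large powers -/
theorem ev_dom {K : Type} [Field K] (f : AbsoluteValue K ℝ) (P : Polynomial K) (k : ℕ)
    (hk : P.coeff k ≠ 0) (a : K) (ha : a ≠ 0)
    (h : (1 < f a ∧ ∀ i ∈ P.support, i ≤ k) ∨ (f a < 1 ∧ ∀ i ∈ P.support, k ≤ i)) :
    ∀ᶠ n : ℕ in atTop, P.eval (a ^ n) ≠ 0 ∧
      (k : ℝ) * Real.log (f (a ^ n)) + Real.log (f (P.coeff k) / 2) ≤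
        Real.log (f (P.eval (a ^ n))) := by
  have hfa : 0 < f a := f.pos_iff.2 ha
  have hck : 0 < f (P.coeff k) := f.pos_iff.2 hk
  set A : ℝ := ∑ i ∈ P.support, f (P.coeff i) with hA
  obtain ⟨ρ, hρ0, hρ, hρt⟩ : ∃ ρ : ℕ → ℝ, (∀ n, 0 ≤ ρ n) ∧ (∀ n, ∀ i ∈ P.support, i ≠ k →
      f (a ^ n) ^ i ≤ f (a ^ n) ^ k * ρ n) ∧ Tendsto ρ atTop (nhds 0) := by
    rcases h with ⟨h1, h2⟩ | ⟨h1, h2⟩
    · refine ⟨fun n => (f a)⁻¹ ^ n, fun n => by positivity, fun n i hi hik => ?_,
        tendsto_pow_atTop_nhds_zero_of_lt_one (by positivity) (inv_lt_one_of_one_lt₀ h1)⟩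
      have hT : 1 ≤ f (a ^ n) := by
        rw [map_pow]
        exact one_le_pow₀ h1.le
      have hT0 : 0 < f (a ^ n) := by linarith
      have h3 : i + 1 ≤ k := by
        have := h2 i hi
        omega
      have h4 : f (a ^ n) ^ (i + 1) ≤ f (a ^ n) ^ k := pow_le_pow_right₀ hT h3
      have h5 : (f a)⁻¹ ^ n = (f (a ^ n))⁻¹ := by
        rw [map_pow, inv_pow]
      show f (a ^ n) ^ i ≤ f (a ^ n) ^ k * (f a)⁻¹ ^ n
      rw [h5, ← div_eq_mul_inv, le_div_iff₀ hT0, ← pow_succ]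
      exact h4
    · refine ⟨fun n => (f a) ^ n, fun n => by positivity, fun n i hi hik => ?_,
        tendsto_pow_atTop_nhds_zero_of_lt_one hfa.le h1⟩
      have hT : f (a ^ n) ≤ 1 := by
        rw [map_pow]
        exact pow_le_one₀ hfa.le h1.le
      have h3 : k + 1 ≤ i := by
        have := h2 i hi
        omega
      have h4 : f (a ^ n) ^ i ≤ f (a ^ n) ^ (k + 1) := pow_le_pow_of_le_one (f.nonneg _) hT h3
      rw [pow_succ] at h4
      rw [map_pow] at h4 ⊢
      exact h4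
  have hlim : Tendsto (fun n => A * ρ n) atTop (nhds 0) := by
    have := hρt.const_mul A
    rwa [mul_zero] at this
  filter_upwards [hlim.eventually_lt_const (by positivity : (0 : ℝ) < f (P.coeff k) / 2)] with n hn
  have h1 := dom f P k (a ^ n) (ρ n) (hρ0 n) (hρ n)
  have hT0 : 0 < f (a ^ n) := f.pos_iff.2 (pow_ne_zero _ ha)
  have h2 : f (a ^ n) ^ k * (f (P.coeff k) / 2) ≤ f (P.eval (a ^ n)) := by
    refine le_trans (mul_le_mul_of_nonneg_left ?_ (by positivity)) h1
    rw [← hA]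
    linarith
  have h3 : 0 < f (a ^ n) ^ k * (f (P.coeff k) / 2) := by positivity
  refine ⟨fun h0 => ?_, ?_⟩
  · rw [h0, map_zero] at h2
    linarith
  · have h4 := Real.log_le_log h3 h2
    rw [Real.log_mul (by positivity) (by positivity), Real.log_pow] at h4
    exact h4

/-- the coefficients in the opposite direction -/
theorem rev_coeff {k K : Type} [Field k] [Field K] [CharZero K] [Algebra k K]
    {P : MvPolynomial (Fin M) k} {e : ℕ} (hP : P.IsHomogeneous e)
    (c : Fin M → Fin (d + 1) → K) (z y : Fin 2 → K) (n0 : ℕ) (hn : n0 ≤ e * d) :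
    (aeval (lpol c z y) P).coeff (e * d - n0) = (aeval (lpol c y z) P).coeff n0 := by
  classical
  rw [form_rev hP c z y, Polynomial.finsetSum_coeff, Finset.sum_eq_single n0]
  · rw [Polynomial.coeff_C_mul, Polynomial.coeff_X_pow, if_pos rfl, mul_one]
  · intro n hn' hne
    rw [Polynomial.coeff_C_mul, Polynomial.coeff_X_pow, if_neg, mul_zero]
    have := Finset.mem_range.1 hn'
    omega
  · intro h
    exact absurd (Finset.mem_range.2 (by omega)) h

/-- the upper bound of the local term at powers of two -/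
theorem up_pow {k K : Type} [Field k] [Field K] [NumberField K] [Algebra k K]
    {F : Fin q → Fin w → MvPolynomial (Fin M) k} {δ : Fin q → ℕ}
    (hF : ∀ i j, (F i j).IsHomogeneous (δ i)) {c : Fin M → Fin (d + 1) → K} (hc : NZ c)
    (z y : Fin 2 → K) (hzy : z 0 * y 1 ≠ z 1 * y 0) {a a' : Fin q → ℕ}
    (hz : Con F c z a) (hy : Con F c y a') (p : Pl K)
    (hp : 1 < av p (2 : K) ∨ av p (2 : K) < 1) (i : Fin q) : ∃ C : ℝ, ∀ᶠ n : ℕ in atTop,
      lt p (F i) (δ i) (pc c (fun t => z t + (2 : K) ^ n * y t)) ≤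
        (a i : ℝ) * (Real.log (nrm (av p) ![1, (2 : K) ^ n]) - Real.log (av p ((2 : K) ^ n))) +
          (a' i : ℝ) * Real.log (nrm (av p) ![1, (2 : K) ^ n]) + C := by
  classical
  have h20 : (2 : K) ≠ 0 := two_ne_zero
  set ψ := lpol c z y with hψ
  have hψd : ∀ l, (ψ l).natDegree ≤ d := fun l => lpol_deg c z y l
  obtain ⟨g1, hg1, hup⟩ := ev_up_vec ψ d hψd
  have hyz : y 0 * z 1 ≠ y 1 * z 0 := fun h => hzy (by linear_combination -h)
  have key : ∀ (j : Fin w) (kk : ℕ), (aeval ψ (F i j)).coeff kk ≠ 0 →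
      ((1 < av p (2 : K) ∧ ∀ t ∈ (aeval ψ (F i j)).support, t ≤ kk) ∨
        (av p (2 : K) < 1 ∧ ∀ t ∈ (aeval ψ (F i j)).support, kk ≤ t)) →
      ∃ C : ℝ, ∀ᶠ n : ℕ in atTop, lt p (F i) (δ i) (pc c (fun t => z t + (2 : K) ^ n * y t)) ≤
        (δ i : ℝ) * (d * Real.log (nrm (av p) ![1, (2 : K) ^ n])) -
          kk * Real.log (av p ((2 : K) ^ n)) + C := by
    intro j kk hkk hsup
    refine ⟨(δ i : ℝ) * Real.log (g1 p) - Real.log (av p ((aeval ψ (F i j)).coeff kk) / 2), ?_⟩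
    filter_upwards [ev_dom (av p) (aeval ψ (F i j)) kk hkk 2 h20 hsup] with n hn
    obtain ⟨hn1, hn2⟩ := hn
    set T : K := (2 : K) ^ n with hT
    have hψT : (fun l => (ψ l).eval T) = pc c (fun i => z i + T * y i) :=
      funext fun l => lpol_eval c z y T l
    have hx0 : pc c (fun i => z i + T * y i) ≠ 0 := hc.ne _ (lvec_ne z y hzy T)
    set x := pc c (fun i => z i + T * y i) with hx
    have e1 : (aeval ψ (F i j)).eval T = aeval x (F i j) := form_eval _ _ _ _ _
    rw [e1] at hn1 hn2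
    have h3 : av p (aeval x (F i j)) ≤ nrm (av p) (fun j => aeval x (F i j)) :=
      le_nrm (av p) (fun j => aeval x (F i j)) j
    have h4 := Real.log_le_log ((av p).pos_iff.2 hn1) h3
    have f1 := hup T p
    rw [hψT] at f1
    have f2 := Real.log_le_log (nrm_pos (av p) hx0) f1
    have hN : 0 < nrm (av p) ![1, T] := by
      have := nrm2_pos p T
      linarith
    rw [Real.log_mul (by have := hg1.1 p; positivity) (by positivity), Real.log_pow] at f2
    have f3 : (δ i : ℝ) * Real.log (nrm (av p) x) ≤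
        δ i * (Real.log (g1 p) + d * Real.log (nrm (av p) ![1, T])) :=
      mul_le_mul_of_nonneg_left f2 (Nat.cast_nonneg _)
    unfold lt
    linarith
  rcases hp with hp | hp
  · -- large powers
    obtain ⟨j, hj⟩ := Con.ex hF hy z hyz i
    have hdv := (hy i).1 j z
    have hco : (aeval (lpol c y z) (F i j)).coeff (a' i) ≠ 0 := by
      intro h0
      apply hj
      rw [Polynomial.X_pow_dvd_iff] at hdv ⊢
      intro t ht
      rcases Nat.lt_succ_iff_lt_or_eq.1 ht with h | h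
      · exact hdv t h
      · rw [h]
        exact h0
    have hle : a' i ≤ δ i * d :=
      (Polynomial.le_natDegree_of_ne_zero hco).trans (aeval_deg (hF i j) _ (lpol_deg c y z))
    have hco2 : (aeval ψ (F i j)).coeff (δ i * d - a' i) ≠ 0 := by
      rw [hψ, rev_coeff (hF i j) c z y _ hle]
      exact hco
    have hdeg : (aeval ψ (F i j)).natDegree ≤ δ i * d - a' i := deg_rev (hF i j) c z y (a' i) hdv
    obtain ⟨C, hC⟩ := key j _ hco2 (Or.inl ⟨hp, fun t ht =>
      (Polynomial.le_natDegree_of_mem_supp _ ht).trans hdeg⟩)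
    refine ⟨C, ?_⟩
    filter_upwards [hC] with n hn
    have h1 : 1 ≤ av p ((2 : K) ^ n) := by
      rw [map_pow]
      exact one_le_pow₀ hp.le
    have h2 : nrm (av p) ![1, (2 : K) ^ n] = av p ((2 : K) ^ n) :=
      le_antisymm (nrm2_le p _ h1 le_rfl) (nrm2_ge p _)
    rw [h2] at hn ⊢
    rw [Nat.cast_sub hle] at hn
    push_cast at hn
    linarith
  · -- small powers
    obtain ⟨j, hj⟩ := Con.ex hF hz y hzy i
    have hdv := (hz i).1 j y
    rw [Polynomial.X_pow_dvd_iff] at hdv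
    have hco : (aeval ψ (F i j)).coeff (a i) ≠ 0 := by
      intro h0
      apply hj
      rw [Polynomial.X_pow_dvd_iff]
      intro t ht
      rcases Nat.lt_succ_iff_lt_or_eq.1 ht with h | h
      · exact hdv t h
      · rw [h]
        exact h0
    obtain ⟨C, hC⟩ := key j _ hco (Or.inr ⟨hp, fun t ht => by
      by_contra hlt
      push Not at hlt
      exact (Polynomial.mem_support_iff.1 ht) (hdv t hlt)⟩)
    refine ⟨C, ?_⟩
    filter_upwards [hC] with n hn
    have h1 : av p ((2 : K) ^ n) ≤ 1 := by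
      rw [map_pow]
      exact pow_le_one₀ ((av p).nonneg _) hp.le
    have h2 : nrm (av p) ![1, (2 : K) ^ n] = 1 :=
      le_antisymm (nrm2_le p _ le_rfl h1) (nrm2_pos p _)
    rw [h2, Real.log_one] at hn ⊢
    linarith

/-- powers of two: the heights are supported at the places above 2 and ∞ -/
theorem exists_S2 {K : Type} [Field K] [NumberField K] :
    ∃ S : Finset (HeightOneSpectrum (𝓞 K)), (∀ v ∈ S, av (Sum.inr v : Pl K) (2 : K) < 1) ∧
    ∀ n : ℕ,
    (∑ p ∈ (Finset.univ : Finset (InfinitePlace K)).disjSum S,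
      wt p * Real.log (nrm (av p) ![1, (2 : K) ^ n]) = logHeight ![1, (2 : K) ^ n]) ∧
    (∑ p ∈ (Finset.univ : Finset (InfinitePlace K)).disjSum S,
      wt p * (Real.log (nrm (av p) ![1, (2 : K) ^ n]) - Real.log (av p ((2 : K) ^ n))) =
        logHeight ![1, (2 : K) ^ n]) := by
  classical
  have h20 : (2 : K) ≠ 0 := two_ne_zero
  have hfin := Pool.Agent.R405.nrm_finite (k := K) (fun _ : Fin 1 => (2 : K)) (by
    intro h
    exact h20 (congrFun h 0))
  refine ⟨hfin.toFinset, fun v hv => ?_, fun n => ?_⟩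
  · have h1 : Pool.Agent.W180.OP.fv v (2 : K) ≠ 1 := by
      intro h
      rw [Set.Finite.mem_toFinset] at hv
      apply hv
      have h2 := nrm_one (Sum.inr v : Pl K) (2 : K)
      exact h2.trans h
    have h2 : Pool.Agent.W180.OP.fv v (2 : K) ≤ 1 := by
      have h := FinitePlace.norm_le_one K v (2 : 𝓞 K)
      have e : algebraMap (𝓞 K) K 2 = 2 := map_ofNat _ 2
      rw [e] at h
      exact h
    exact lt_of_le_of_ne h2 h1
  have hT0 : (2 : K) ^ n ≠ 0 := pow_ne_zero _ h20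
  have hv : ∀ v, v ∉ hfin.toFinset → Pool.Agent.W180.OP.fv v (2 : K) = 1 := by
    intro v hv
    have h1 : nrm (Pool.Agent.W180.OP.fv v) (fun _ : Fin 1 => (2 : K)) = 1 := by
      by_contra h
      exact hv (by rw [Set.Finite.mem_toFinset]; exact h)
    have h2 := nrm_one (Sum.inr v : Pl K) (2 : K)
    exact h2.symm.trans h1
  have hvT : ∀ v, v ∉ hfin.toFinset → Pool.Agent.W180.OP.fv v ((2 : K) ^ n) = 1 := by
    intro v h
    rw [map_pow, hv v h, one_pow]
  have h1 := ht_places (![1, (2 : K) ^ n]) (vec2_ne _) hfin.toFinset (by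
    intro v h
    refine le_antisymm ?_ (nrm2_pos (Sum.inr v) _)
    exact nrm2_le (Sum.inr v) _ le_rfl (le_of_eq (hvT v h)))
  have h2 := ht_places (![1, ((2 : K) ^ n)⁻¹]) (vec2_ne _) hfin.toFinset (by
    intro v h
    refine le_antisymm ?_ (nrm2_pos (Sum.inr v) _)
    refine nrm2_le (Sum.inr v) _ le_rfl (le_of_eq ?_)
    show Pool.Agent.W180.OP.fv v ((2 : K) ^ n)⁻¹ = 1
    rw [map_inv₀, hvT v h, inv_one])
  refine ⟨h1, ?_⟩
  have h3 : logHeight ![1, ((2 : K) ^ n)⁻¹] = logHeight ![1, (2 : K) ^ n] := by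
    have e1 : (![1, ((2 : K) ^ n)⁻¹] : Fin 2 → K) = ((2 : K) ^ n)⁻¹ • ![(2 : K) ^ n, 1] := by
      funext i
      fin_cases i
      · show (1 : K) = ((2 : K) ^ n)⁻¹ * (2 : K) ^ n
        field_simp
      · show ((2 : K) ^ n)⁻¹ = ((2 : K) ^ n)⁻¹ * 1
        rw [mul_one]
    rw [e1, logHeight_smul_eq_logHeight _ (inv_ne_zero hT0), swap_ht]
  rw [← h3, ← h2]
  refine Finset.sum_congr rfl fun p _ => ?_
  congr 1
  have e1 : (![1, ((2 : K) ^ n)⁻¹] : Fin 2 → K) =
      fun i => ((2 : K) ^ n)⁻¹ * ![(2 : K) ^ n, 1] i := by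
    funext i
    fin_cases i
    · show (1 : K) = ((2 : K) ^ n)⁻¹ * (2 : K) ^ n
      field_simp
    · show ((2 : K) ^ n)⁻¹ = ((2 : K) ^ n)⁻¹ * 1
      rw [mul_one]
  have e2 : 0 < av p ((2 : K) ^ n) := (av p).pos_iff.2 hT0
  have e3 : 0 < nrm (av p) ![1, (2 : K) ^ n] := nrm_pos (av p) (vec2_ne _)
  rw [e1, nrm_smul, nrm_swap, map_inv₀, Real.log_mul (inv_ne_zero e2.ne') e3.ne', Real.log_inv]
  ring

end Pool.Agent.H432.MI
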