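import Mathlib
import Pool.Agent.H432.MI.Pow

/-!
The lower bound on a rational curve for real coefficients, and the criterion.
-/

set_option autoImplicit false
set_option linter.unusedSectionVars false

namespace Pool.Agent.H432.MI

open NumberField IsDedekindDomain Height Module MvPolynomial Pool.Agent.N750 Pool.Agent.H432.RC
open Pool.Agent.H432.TC Pool.Agent.H432.EX Filter
open Pool.Agent.W180.OP (Pl av wt nrm le_nrm nrm_pos wt_nonneg exists_nrm nrm_nonneg)

variable {M g q w n' d : ℕ}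

/-- the weighted local bound at powers of two -/
theorem wt_pow {k K : Type} [Field k] [Field K] [NumberField K] [Algebra k K]
    {F : Fin q → Fin w → MvPolynomial (Fin M) k} {δ : Fin q → ℕ}
    (hF : ∀ i j, (F i j).IsHomogeneous (δ i)) (u : Fin q → ℝ) {c : Fin M → Fin (d + 1) → K}
    (hc : NZ c) (z y : Fin 2 → K) (hzy : z 0 * y 1 ≠ z 1 * y 0) {a a' : Fin q → ℕ}
    (hz : Con F c z a) (hy : Con F c y a') (p : Pl K)
    (hp : 1 < av p (2 : K) ∨ av p (2 : K) < 1) (i : Fin q) : ∃ C : ℝ, ∀ᶠ n : ℕ in atTop,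
      (∀ i, ∃ j, aeval (pc c (fun t => z t + (2 : K) ^ n * y t)) (F i j) ≠ 0) →
      u i * ((a i : ℝ) * (Real.log (nrm (av p) ![1, (2 : K) ^ n]) -
        Real.log (av p ((2 : K) ^ n))) + (a' i : ℝ) * Real.log (nrm (av p) ![1, (2 : K) ^ n])) ≤
      u i * lt p (F i) (δ i) (pc c (fun t => z t + (2 : K) ^ n * y t)) + C := by
  classical
  rcases le_total 0 (u i) with hu | hu
  · obtain ⟨C, hC⟩ := low_loc (F := fun _ : Fin 1 => F i) (δ := fun _ => δ i) (fun _ j => hF i j)
      hc z y hzy (fun _ => a i) (fun _ => a' i) (fun _ j => (hz i).1 j y)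
      (fun _ j => (hy i).1 j z) (fun _ => by
        obtain ⟨j, hj⟩ := Con.ex hF hz y hzy i
        exact ⟨j, fun h => hj (by rw [h]; exact dvd_zero _)⟩) p
    refine ⟨u i * |C|, Eventually.of_forall fun n hn => ?_⟩
    have h1 := hC ((2 : K) ^ n) (pow_ne_zero _ two_ne_zero) (fun _ => hn i)
    simp only [Finset.univ_unique, Finset.sum_singleton] at h1
    have h2 : (a i : ℝ) * (Real.log (nrm (av p) ![1, (2 : K) ^ n]) -
        Real.log (av p ((2 : K) ^ n))) + (a' i : ℝ) * Real.log (nrm (av p) ![1, (2 : K) ^ n]) ≤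
        lt p (F i) (δ i) (pc c (fun t => z t + (2 : K) ^ n * y t)) + |C| := by
      refine h1.trans ?_
      unfold lt
      have := le_abs_self C
      linarith
    have h3 := mul_le_mul_of_nonneg_left h2 hu
    linarith
  · obtain ⟨C, hC⟩ := up_pow hF hc z y hzy hz hy p hp i
    refine ⟨(- u i) * |C|, ?_⟩
    filter_upwards [hC] with n hn _
    have h2 : lt p (F i) (δ i) (pc c (fun t => z t + (2 : K) ^ n * y t)) ≤
        ((a i : ℝ) * (Real.log (nrm (av p) ![1, (2 : K) ^ n]) -
        Real.log (av p ((2 : K) ^ n))) + (a' i : ℝ) * Real.log (nrm (av p) ![1, (2 : K) ^ n])) +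
        |C| := by
      have := le_abs_self C
      linarith
    have h3 := mul_le_mul_of_nonneg_left h2 (neg_nonneg.2 hu)
    linarith

/-- **the lower bound** -/
theorem low_all {k K : Type} [Field k] [Field K] [NumberField K] [Algebra k K]
    {G : Fin g → MvPolynomial (Fin M) k} (hsm : Sm (n' + 1) G)
    {F : Fin q → Fin w → MvPolynomial (Fin M) k} {δ : Fin q → ℕ}
    (hF : ∀ i j, (F i j).IsHomogeneous (δ i)) (u : Fin q → ℝ)
    {c : Fin M → Fin (d + 1) → K} (hnz : NZ c)
    (honX : ∀ (z : Fin 2 → K) (i : Fin g), aeval (pc c z) (G i) = 0)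
    {m0 : ℕ} {β : (Fin (n' + 2) → Fin M) → Fin (m0 + 1) → K} (hβ : GF G c β) (α : ℝ)
    (z y : Fin 2 → K) (hzy : z 0 * y 1 ≠ z 1 * y 0) (a a' : Fin q → ℕ) (hz : Con F c z a)
    (hy : Con F c y a')
    (hall : ∀ (S : Finset (HeightOneSpectrum (𝓞 K))) (ε : ℝ), 0 < ε → ∃ C : ℝ,
      ∀ s : Fin 2 → K, s ≠ 0 → (∀ i, ∃ j, aeval (pc c s) (F i j) ≠ 0) →
      ∀ A, IsTB (p := n' + 2) G (pc c s) A →
      W ((Finset.univ : Finset (InfinitePlace K)).disjSum S) F δ u (pc c s) + logHeight (mv A) ≤
        (n' + 2 + α + ε) * logHeight (pc c s) + C) :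
    (m0 : ℝ) + ∑ i, u i * a i + ∑ i, u i * a' i ≤ (n' + 2 + α) * d := by
  classical
  have hne : ∀ i, ∃ j, aeval (lpol c z y) (F i j) ≠ 0 := fun i => by
    obtain ⟨j, hj⟩ := Con.ex hF hz y hzy i
    exact ⟨j, fun h => hj (by rw [h]; exact dvd_zero _)⟩
  obtain ⟨S, hS2, hS⟩ := exists_S2 (K := K)
  obtain ⟨S0, hS0⟩ := Pool.Agent.H432.EX.exists_S2 (K := K)
  obtain ⟨C1, hC1⟩ := hnz.ht z y hzy
  obtain ⟨C2, hC2⟩ := hβ.ht hsm hnz z y hzy
  set S' : Finset (Pl K) := (Finset.univ : Finset (InfinitePlace K)).disjSum S with hS'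
  have hpS : ∀ p ∈ S', 1 < av p (2 : K) ∨ av p (2 : K) < 1 := by
    intro p hp
    rcases p with w0 | v
    · left
      have e0 : w0 (2 : K) = 2 := by
        rw [← InfinitePlace.norm_embedding_eq w0 (2 : K), map_ofNat]
        exact Complex.norm_ofNat 2
      show 1 < w0 (2 : K)
      rw [e0]
      norm_num
    · right
      refine hS2 v ?_
      rw [hS', Finset.inr_mem_disjSum] at hp
      exact hp
  have hC3 : ∀ (p : Pl K) (i : Fin q), ∃ C : ℝ, p ∈ S' → ∀ᶠ n : ℕ in atTop,
      (∀ i, ∃ j, aeval (pc c (fun t => z t + (2 : K) ^ n * y t)) (F i j) ≠ 0) →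
      u i * ((a i : ℝ) * (Real.log (nrm (av p) ![1, (2 : K) ^ n]) -
        Real.log (av p ((2 : K) ^ n))) + (a' i : ℝ) * Real.log (nrm (av p) ![1, (2 : K) ^ n])) ≤
      u i * lt p (F i) (δ i) (pc c (fun t => z t + (2 : K) ^ n * y t)) + C := by
    intro p i
    by_cases hp : p ∈ S'
    · obtain ⟨C, hC⟩ := wt_pow hF u hnz z y hzy hz hy p (hpS p hp) i
      exact ⟨C, fun _ => hC⟩
    · exact ⟨0, fun h => absurd h hp⟩
  choose C3 hC3 using hC3
  have hev : ∀ᶠ n : ℕ in atTop, ∀ p ∈ S', ∀ i,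
      (∀ i, ∃ j, aeval (pc c (fun t => z t + (2 : K) ^ n * y t)) (F i j) ≠ 0) →
      u i * ((a i : ℝ) * (Real.log (nrm (av p) ![1, (2 : K) ^ n]) -
        Real.log (av p ((2 : K) ^ n))) + (a' i : ℝ) * Real.log (nrm (av p) ![1, (2 : K) ^ n])) ≤
      u i * lt p (F i) (δ i) (pc c (fun t => z t + (2 : K) ^ n * y t)) + C3 p i := by
    rw [Filter.eventually_all_finset]
    intro p hp
    rw [eventually_all]
    intro i
    exact hC3 p i hp
  set H : ℕ → ℝ := fun n => logHeight ![1, (2 : K) ^ n] with hH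
  have hHtop : Tendsto H atTop atTop := by
    refine tendsto_atTop_mono (fun n => (hS0 n).2.2) ?_
    exact Tendsto.atTop_mul_const (Real.log_pos (by norm_num)) tendsto_natCast_atTop_atTop
  -- the points outside of the divisor
  have hgood : ∀ᶠ n : ℕ in atTop, ∀ i, ∃ j,
      aeval (pc c (fun i => z i + (2 : K) ^ n * y i)) (F i j) ≠ 0 := by
    rw [eventually_all]
    intro i
    obtain ⟨j, hj⟩ := hne i
    have hinj : Function.Injective (fun n : ℕ => (2 : K) ^ n) := by
      intro n n' h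
      have h1 : (2 : K) ^ n = (2 : K) ^ n' := h
      have h2 : ((2 ^ n : ℕ) : K) = ((2 ^ n' : ℕ) : K) := by
        push_cast
        exact h1
      exact Nat.pow_right_injective (le_refl 2) (Nat.cast_injective h2)
    have hfin : {n : ℕ | (aeval (lpol c z y) (F i j)).eval ((2 : K) ^ n) = 0}.Finite := by
      have h1 : {x : K | (aeval (lpol c z y) (F i j)).IsRoot x}.Finite :=
        Polynomial.finite_setOfPred_isRoot hj
      exact h1.preimage hinj.injOn
    have h1 := hfin.compl_mem_cofinite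
    rw [Nat.cofinite_eq_atTop] at h1
    filter_upwards [h1] with n hn
    refine ⟨j, fun h => hn ?_⟩
    show (aeval (lpol c z y) (F i j)).eval ((2 : K) ^ n) = 0
    rw [form_eval]
    exact h
  refine le_of_forall_pos_le_add fun η hη => ?_
  set ε : ℝ := η / (d + 1) with hε
  have hεp : 0 < ε := by positivity
  obtain ⟨C4, hC4⟩ := hall S ε hεp
  set E : ℝ := ∑ i, u i * a i with hE
  set E' : ℝ := ∑ i, u i * a' i with hE'
  -- the inequality for the points
  set Cs : ℝ := |C4| + |n' + 2 + α + ε| * |C1| + |C2| + ∑ p ∈ S', wt p * ∑ i, |C3 p i| with hCs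
  have hineq : ∀ᶠ n : ℕ in atTop, ((m0 : ℝ) + E + E' - (n' + 2 + α + ε) * d) * H n ≤ Cs := by
    filter_upwards [hgood, hev] with n hn hev
    set T : K := (2 : K) ^ n with hT
    have hT0 : T ≠ 0 := pow_ne_zero _ two_ne_zero
    have hs0 : (fun i => z i + T * y i) ≠ 0 := lvec_ne z y hzy T
    obtain ⟨A, hA, -⟩ := hβ K (fun i => z i + T * y i) hs0
    have hA' : IsTB (p := n' + 2) G (pc c (fun i => z i + T * y i)) A := hA
    have h1 := hC4 _ hs0 hn A hA'
    have h2 := hC1 T
    have h3 := hC2 T (fun i => honX _ i) A hA'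
    have h4 : E * H n + E' * H n ≤ W S' F δ u (pc c (fun i => z i + T * y i)) +
        ∑ p ∈ S', wt p * ∑ i, |C3 p i| := by
      have h5 : E * H n + E' * H n = ∑ p ∈ S', wt p *
          ∑ i, u i * ((a i : ℝ) * (Real.log (nrm (av p) ![1, T]) - Real.log (av p T)) +
          (a' i : ℝ) * Real.log (nrm (av p) ![1, T])) := by
        have e0 : ∀ p : Pl K, ∑ i, u i * ((a i : ℝ) * (Real.log (nrm (av p) ![1, T]) -
            Real.log (av p T)) + (a' i : ℝ) * Real.log (nrm (av p) ![1, T])) =
            E * (Real.log (nrm (av p) ![1, T]) - Real.log (av p T)) +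
            E' * Real.log (nrm (av p) ![1, T]) := by
          intro p
          rw [hE, hE', Finset.sum_mul, Finset.sum_mul, ← Finset.sum_add_distrib]
          exact Finset.sum_congr rfl fun i _ => by ring
        have e3 : ∑ p ∈ S', wt p * ∑ i, u i * ((a i : ℝ) * (Real.log (nrm (av p) ![1, T]) -
            Real.log (av p T)) + (a' i : ℝ) * Real.log (nrm (av p) ![1, T])) =
            ∑ p ∈ S', (wt p * (E * (Real.log (nrm (av p) ![1, T]) - Real.log (av p T))) +
              wt p * (E' * Real.log (nrm (av p) ![1, T]))) :=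
          Finset.sum_congr rfl fun p _ => by
            rw [e0 p]
            ring
        have e1 : ∑ p ∈ S', wt p * (E * (Real.log (nrm (av p) ![1, T]) -
            Real.log (av p T))) = E * ∑ p ∈ S', wt p *
              (Real.log (nrm (av p) ![1, T]) - Real.log (av p T)) := by
          rw [Finset.mul_sum]
          exact Finset.sum_congr rfl fun p _ => by ring
        have e2 : ∑ p ∈ S', wt p * (E' * Real.log (nrm (av p) ![1, T])) =
            E' * ∑ p ∈ S', wt p * Real.log (nrm (av p) ![1, T]) := by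
          rw [Finset.mul_sum]
          exact Finset.sum_congr rfl fun p _ => by ring
        rw [e3, Finset.sum_add_distrib, e1, e2, hT, (hS n).1, (hS n).2]
      rw [h5]
      unfold W
      rw [← Finset.sum_add_distrib]
      refine Finset.sum_le_sum fun p hp => ?_
      rw [← mul_add]
      refine mul_le_mul_of_nonneg_left ?_ (wt_nonneg p)
      rw [← Finset.sum_add_distrib]
      refine Finset.sum_le_sum fun i _ => ?_
      have h6 := hev p hp i hn
      have h7 := le_abs_self (C3 p i)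
      linarith
    have h8 : (n' + 2 + α + ε) * (logHeight (pc c (fun i => z i + T * y i)) - d * H n) ≤
        |n' + 2 + α + ε| * |C1| := by
      refine (le_abs_self _).trans ?_
      rw [abs_mul]
      exact mul_le_mul_of_nonneg_left (h2.trans (le_abs_self _)) (abs_nonneg _)
    have h9 := (abs_le.1 h3).1
    have h10 := le_abs_self C2
    have h11 := le_abs_self C4
    have h12 : logHeight (![1, T] : Fin 2 → K) = H n := rfl
    rw [h12] at h9
    rw [hCs]
    nlinarith
  have hfinal : (m0 : ℝ) + E + E' - (n' + 2 + α + ε) * d ≤ 0 := by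
    by_contra hcon
    push Not at hcon
    have h1 : Tendsto (fun n => ((m0 : ℝ) + E + E' - (n' + 2 + α + ε) * d) * H n) atTop atTop :=
      hHtop.const_mul_atTop hcon
    obtain ⟨n, hn1, hn2⟩ := (hineq.and (h1.eventually_gt_atTop Cs)).exists
    linarith
  have h1 : ε * d ≤ η := by
    rw [hε, div_mul_eq_mul_div, div_le_iff₀ (by positivity)]
    nlinarith
  nlinarith

/-- **the exact exponent** -/
theorem crit {k L : Type} [Field k] [NumberField k] [Field L] [NumberField L] [Algebra k L]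
    {G : Fin g → MvPolynomial (Fin M) k} {e : Fin g → ℕ} (hG : ∀ i, (G i).IsHomogeneous (e i))
    (hsm : Sm (n' + 1) G)
    {F : Fin q → Fin w → MvPolynomial (Fin M) k} {δ : Fin q → ℕ}
    (hF : ∀ i j, (F i j).IsHomogeneous (δ i)) (u : Fin q → ℝ) (hd0 : 1 ≤ d)
    {c : Fin M → Fin (d + 1) → L}
    (hc : RC0 G c) (hD : ∃ z : Fin 2 → L, z ≠ 0 ∧ ∀ i, ∃ j, aeval (pc c z) (F i j) ≠ 0)
    {m0 : ℕ} {β : (Fin (n' + 2) → Fin M) → Fin (m0 + 1) → L}
    (hβ : GF G c β) (α : ℝ) :
    (∀ (K : Type) [Field K] [NumberField K] [Algebra k K] [Algebra L K] [IsScalarTower k L K]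
      (S : Finset (HeightOneSpectrum (𝓞 K))) (ε : ℝ), 0 < ε → ∃ C : ℝ,
      ∀ s : Fin 2 → K, s ≠ 0 →
      (∀ i, ∃ j, aeval (pc (fun l m => algebraMap L K (c l m)) s) (F i j) ≠ 0) →
      ∀ A, IsTB (p := n' + 2) G (pc (fun l m => algebraMap L K (c l m)) s) A →
      W ((Finset.univ : Finset (InfinitePlace K)).disjSum S) F δ u
        (pc (fun l m => algebraMap L K (c l m)) s) + logHeight (mv A) ≤
        (n' + 2 + α + ε) * logHeight (pc (fun l m => algebraMap L K (c l m)) s) + C) ↔
    ∀ (K : Type) [Field K] [NumberField K] [Algebra k K] [Algebra L K] [IsScalarTower k L K]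
      (z y : Fin 2 → K), z 0 * y 1 ≠ z 1 * y 0 → ∀ a a' : Fin q → ℕ,
      Con F (fun l m => algebraMap L K (c l m)) z a →
      Con F (fun l m => algebraMap L K (c l m)) y a' →
      (m0 : ℝ) + ∑ i, u i * a i + ∑ i, u i * a' i ≤ (n' + 2 + α) * d := by
  classical
  obtain ⟨z0, hz0, hz0F⟩ := hD
  have hcK : ∀ (K : Type) [Field K] [NumberField K] [Algebra k K] [Algebra L K]
      [IsScalarTower k L K], RC0 G (fun l m => algebraMap L K (c l m)) := by
    intro K _ _ _ _ _
    refine ⟨?_, ?_⟩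
    · intro Ω _ _ z hz
      let _ : Algebra L Ω := ((algebraMap K Ω).comp (algebraMap L K)).toAlgebra
      exact hc.nz Ω z hz
    · intro Ω _ _ _ _ z i
      let _ : Algebra L Ω := ((algebraMap K Ω).comp (algebraMap L K)).toAlgebra
      have htow : IsScalarTower k L Ω := IsScalarTower.of_algebraMap_eq fun x => by
        rw [IsScalarTower.algebraMap_apply k K Ω, IsScalarTower.algebraMap_apply k L K]
        rfl
      exact hc.onX Ω z i
  constructor
  · intro hall K _ _ _ _ _ z y hzy a a' hz hy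
    exact low_all hsm hF u (fun Ω _ _ z hz => (hcK K).nz Ω z hz) (fun z i => hc.onX K z i)
      (hβ.map (E := K)) α z y hzy a a' hz hy (hall K)
  · intro h K _ _ _ _ _ S ε hε
    refine up_all hG hsm hF u hd0 (hcK K) ⟨fun i => algebraMap L K (z0 i), ?_, fun i => ?_⟩
      (hβ.map (E := K)) α ?_ _ ε hε
    · intro h0
      apply hz0
      funext i
      apply (algebraMap L K).injective
      rw [Pi.zero_apply, map_zero]
      exact congrFun h0 i
    · obtain ⟨j, hj⟩ := hz0F i
      refine ⟨j, ?_⟩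
      rw [pc_map, aeval_am]
      exact (map_ne_zero _).2 hj
    · intro E _ _ _ _ _ z y hzy a a' hz hy
      let _ : Algebra L E := ((algebraMap K E).comp (algebraMap L K)).toAlgebra
      have htow : IsScalarTower k L E := IsScalarTower.of_algebraMap_eq fun x => by
        rw [IsScalarTower.algebraMap_apply k K E, IsScalarTower.algebraMap_apply k L K]
        rfl
      exact h E z y hzy a a' hz hy

end Pool.Agent.H432.MI
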